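import Pool.Agent.Helper79.GQ.FE

set_option autoImplicit false
open MeasureTheory ProbabilityTheory

/-!
MP_13b103_pr: many geodesic rays for every bounded law, exponentially many in the dimension.

Let `d ≥ 2`, and let the i.i.d. edge weights have values in `[a, b]`, `a > 0`, mean `m`, and a law which is not
a point mass (for instance any atomless law). Let `N ≤ 2 d`, or `N ≤ exp (a ^ 2 d / (2 m ^ 2))`, or
`(N - 1) (exp (- l a) cosh (l m)) ^ d < 1` for some `l ≥ 0`. Then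
(B) with positive probability at least `N` geodesic rays start at the origin, and
(A) almost surely there are `N` pairwise disjoint geodesic rays in the lattice.
-/

namespace Pool.Agent.Results.MP_13b103_pr.ManyRays

theorem result : ∀ (d : ℕ), 2 ≤ d → ∀ (μ : Measure ℝ), IsProbabilityMeasure μ →
  ∀ (a b m : ℝ), 0 < a → μ (Set.Icc a b)ᶜ = 0 → (∀ x, μ {x} ≠ 1) → ∫ x, x ∂μ = m →
  ∀ (N : ℕ), (N ≤ 2 * d ∨ (N : ℝ) ≤ Real.exp (a ^ 2 * d / (2 * m ^ 2)) ∨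
    ∃ l : ℝ, 0 ≤ l ∧ ((N : ℝ) - 1) * (Real.exp (-(l * a)) * Real.cosh (l * m)) ^ d < 1) →
  ∀ (Ω : Type) (mΩ : MeasurableSpace Ω) (P : Measure Ω), IsProbabilityMeasure P →
  ∀ (t : Sym2 (Fin d → ℤ) → Ω → ℝ),
    (∀ e, Measurable (t e)) →
    iIndepFun
      (fun e : {e : Sym2 (Fin d → ℤ) //
          ∃ x y : Fin d → ℤ, e = s(x, y) ∧ ∑ i, |x i - y i| = 1} => t e.1)
      P →
    (∀ x y : Fin d → ℤ, ∑ i, |x i - y i| = 1 →
      Measure.map (t s(x, y)) P = μ) →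
    (∃ A : Set Ω, MeasurableSet A ∧ 0 < P A ∧ ∀ ω ∈ A,
      (N : ℕ∞) ≤ Set.encard {γ : ℕ → (Fin d → ℤ) |
        γ 0 = 0 ∧ Function.Injective γ ∧
        (∀ k, ∑ i, |γ k i - γ (k + 1) i| = 1) ∧
        ∀ m n : ℕ, m ≤ n →
          ∀ (L : ℕ) (q : ℕ → (Fin d → ℤ)), q 0 = γ m → q L = γ n →
            (∀ k < L, ∑ i, |q k i - q (k + 1) i| = 1) →
            ∑ k ∈ Finset.range (n - m), t s(γ (m + k), γ (m + k + 1)) ω ≤
              ∑ k ∈ Finset.range L, t s(q k, q (k + 1)) ω}) ∧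
    ∀ᵐ ω ∂P, ∃ γ : Fin N → ℕ → (Fin d → ℤ),
      (∀ i j, i ≠ j → ∀ k l, γ i k ≠ γ j l) ∧
      ∀ j, Function.Injective (γ j) ∧
        (∀ k, ∑ i, |γ j k i - γ j (k + 1) i| = 1) ∧
        ∀ m n : ℕ, m ≤ n →
          ∀ (L : ℕ) (q : ℕ → (Fin d → ℤ)), q 0 = γ j m → q L = γ j n →
            (∀ k < L, ∑ i, |q k i - q (k + 1) i| = 1) →
            ∑ k ∈ Finset.range (n - m), t s(γ j (m + k), γ j (m + k + 1)) ω ≤
              ∑ k ∈ Finset.range L, t s(q k, q (k + 1)) ω :=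
  Pool.Agent.Helper79.GQ.final

end Pool.Agent.Results.MP_13b103_pr.ManyRays
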