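import Pool.Agent.Helper98.GM.M7

set_option autoImplicit false
open MeasureTheory ProbabilityTheory

/-!
MP_13b103_pr: many geodesic rays for laws of edge weights which touch `0` and may be unbounded
(for instance the exponential law, that is the Richardson or Eden model).

Let `ν` be a law on `(0, ∞)` with an exponential moment which is not a point mass. There are `E` and
`d₀`, depending on `ν` only, such that for every `d ≥ 2` and i.i.d. edge weights of law `ν` on the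
lattice of dimension `d`: if `N ≤ 2 d`, or if `κ t ^ α ≤ ν (0, t] ≤ K t ^ α` near `0`, `d ≥ d₀` and
`N ≤ exp (d / (log d) ^ E)`, then
(B) with positive probability at least `N` geodesic rays start at the origin, and
(A) almost surely there are `N` pairwise disjoint geodesic rays in the lattice.
-/

namespace Pool.Agent.Results.MP_13b103_pr.RichardsonRays

theorem result : ∀ (ν : Measure ℝ), IsProbabilityMeasure ν → ν (Set.Iic 0) = 0 →
  (∃ η : ℝ, 0 < η ∧ Integrable (fun x => Real.exp (η * x)) ν) → (∀ x, ν {x} ≠ 1) →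
  ∃ (E : ℝ) (d₀ : ℕ), ∀ (d : ℕ), 2 ≤ d → ∀ (N : ℕ),
  (N ≤ 2 * d ∨ ((∃ α κ K t₀ : ℝ, 0 < α ∧ 0 < κ ∧ 0 < t₀ ∧ ∀ t : ℝ, 0 < t → t ≤ t₀ →
      κ * t ^ α ≤ ν.real (Set.Iic t) ∧ ν.real (Set.Iic t) ≤ K * t ^ α) ∧
    d₀ ≤ d ∧ (N : ℝ) ≤ Real.exp (d / Real.log d ^ E))) →
  ∀ (Ω : Type) (mΩ : MeasurableSpace Ω) (P : Measure Ω), IsProbabilityMeasure P →
  ∀ (t : Sym2 (Fin d → ℤ) → Ω → ℝ),
    (∀ e, Measurable (t e)) →
    iIndepFun
      (fun e : {e : Sym2 (Fin d → ℤ) //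
          ∃ x y : Fin d → ℤ, e = s(x, y) ∧ ∑ i, |x i - y i| = 1} => t e.1)
      P →
    (∀ x y : Fin d → ℤ, ∑ i, |x i - y i| = 1 →
      Measure.map (t s(x, y)) P = ν) →
    (∃ A : Set Ω, MeasurableSet A ∧ 0 < P A ∧ ∀ ω ∈ A,
      (N : ℕ∞) ≤ Set.encard {γ : ℕ → (Fin d → ℤ) |
        γ 0 = 0 ∧ Function.Injective γ ∧
        (∀ k, ∑ i, |γ k i - γ (k + 1) i| = 1) ∧
        ∀ m n : ℕ, m ≤ n →
          ∀ (L : ℕ) (q : ℕ → (Fin d → ℤ)), q 0 = γ m → q L = γ n →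
            (∀ k < L, ∑ i, |q k i - q (k + 1) i| = 1) →
            ∑ k ∈ Finset.range (n - m), t s(γ (m + k), γ (m + k + 1)) ω ≤
              ∑ k ∈ Finset.range L, t s(q k, q (k + 1)) ω}) ∧
    ∀ᵐ ω ∂P, ∃ γ : Fin N → ℕ → (Fin d → ℤ),
      (∀ i j, i ≠ j → ∀ k l, γ i k ≠ γ j l) ∧
      ∀ j, Function.Injective (γ j) ∧
        (∀ k, ∑ i, |γ j k i - γ j (k + 1) i| = 1) ∧
        ∀ m n : ℕ, m ≤ n →
          ∀ (L : ℕ) (q : ℕ → (Fin d → ℤ)), q 0 = γ j m → q L = γ j n →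
            (∀ k < L, ∑ i, |q k i - q (k + 1) i| = 1) →
            ∑ k ∈ Finset.range (n - m), t s(γ j (m + k), γ j (m + k + 1)) ω ≤
              ∑ k ∈ Finset.range L, t s(q k, q (k + 1)) ω :=
  Pool.Agent.Helper98.GK.final

end Pool.Agent.Results.MP_13b103_pr.RichardsonRays
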