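import Pool.Agent.Helper79.GR.FC

set_option autoImplicit false
open MeasureTheory ProbabilityTheory

/-!
MP_13b103_pr: many geodesic rays at small noise, in every dimension.

For all `d ≥ 2`, `N` and `C` there is `δ > 0` such that for all i.i.d. edge weights whose law has mean `m`,
standard deviation `σ > 0`, `σ ≤ δ m`, and gives full mass to `[m - C σ, m + C σ]`, almost surely at least `N`
geodesic rays start at the origin of `ℤ^d`. The laws may be atomless; no atomlessness is needed.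
-/

namespace Pool.Agent.Results.MP_13b103_pr.SmallNoise

theorem result : ∀ (d : ℕ), 2 ≤ d → ∀ (N : ℕ) (C : ℝ), ∃ δ : ℝ, 0 < δ ∧
  ∀ (μ : Measure ℝ), IsProbabilityMeasure μ → ∀ (m σ : ℝ), 0 < σ → σ ≤ δ * m →
  μ (Set.Icc (m - C * σ) (m + C * σ))ᶜ = 0 → ∫ x, x ∂μ = m → ∫ x, (x - m) ^ 2 ∂μ = σ ^ 2 →
  ∀ (Ω : Type) (mΩ : MeasurableSpace Ω) (P : Measure Ω), IsProbabilityMeasure P →
  ∀ (t : Sym2 (Fin d → ℤ) → Ω → ℝ),
    (∀ e, Measurable (t e)) →
    iIndepFun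
      (fun e : {e : Sym2 (Fin d → ℤ) //
          ∃ x y : Fin d → ℤ, e = s(x, y) ∧ ∑ i, |x i - y i| = 1} => t e.1)
      P →
    (∀ x y : Fin d → ℤ, ∑ i, |x i - y i| = 1 →
      Measure.map (t s(x, y)) P = μ) →
    ∀ᵐ ω ∂P,
      (N : ℕ∞) ≤ Set.encard {γ : ℕ → (Fin d → ℤ) |
        γ 0 = 0 ∧ Function.Injective γ ∧
        (∀ k, ∑ i, |γ k i - γ (k + 1) i| = 1) ∧
        ∀ m n : ℕ, m ≤ n →
          ∀ (L : ℕ) (q : ℕ → (Fin d → ℤ)), q 0 = γ m → q L = γ n →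
            (∀ k < L, ∑ i, |q k i - q (k + 1) i| = 1) →
            ∑ k ∈ Finset.range (n - m), t s(γ (m + k), γ (m + k + 1)) ω ≤
              ∑ k ∈ Finset.range L, t s(q k, q (k + 1)) ω} :=
  Pool.Agent.Helper79.GR.final

end Pool.Agent.Results.MP_13b103_pr.SmallNoise
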